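import Pool.Agent.Lib.MP_c8b0a1_an.RFinal

set_option autoImplicit false

namespace Pool.Agent.Results.MP_c8b0a1_an.RangeOneThird

theorem result :
    ∀ d : ℕ, 3 ≤ d → ∀ p : ℝ, 1 ≤ p → p < ((6 * d + 10 : ℝ) / (3 * d + 11)) →
      ∃ C : ℝ, ∀ (F : Type) [Field F] [Fintype F] [DecidableEq F],
        ringChar F ≠ 2 → ∀ ψ : AddChar F ℂ, ψ ≠ 1 → ∀ j : F, j ≠ 0 →
        ((d % 4 = 1 ∧ quadraticChar F j = -1) ∨ (d % 4 = 3 ∧ quadraticChar F (-j) = -1)) →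
        ∀ f : (Fin d → F) → ℂ,
          Real.sqrt ((1 / ((Finset.univ.filter (fun ξ : Fin d → F => ∑ i, ξ i ^ 2 = j)).card : ℝ)) *
            ∑ ξ ∈ Finset.univ.filter (fun ξ : Fin d → F => ∑ i, ξ i ^ 2 = j),
              ‖∑ x : Fin d → F, f x * ψ (-(∑ i, x i * ξ i))‖ ^ 2)
          ≤ C * (∑ x : Fin d → F, ‖f x‖ ^ p) ^ (1 / p) :=
  Pool.Agent.Lib.MP_c8b0a1_an.main2

end Pool.Agent.Results.MP_c8b0a1_an.RangeOneThird
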