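import Pool.Agent.Lib.MP_c8b0a1_an.Four.Main

set_option autoImplicit false

namespace Pool.Agent.Results.MP_c8b0a1_an.SharpLFour

theorem result :
    ∀ d : ℕ, 3 ≤ d →
      ∃ C : ℝ, ∀ (F : Type) [Field F] [Fintype F] [DecidableEq F],
        ringChar F ≠ 2 → ∀ ψ : AddChar F ℂ, ψ ≠ 1 → ∀ j : F, j ≠ 0 →
        ((d % 4 = 1 ∧ quadraticChar F j = -1) ∨ (d % 4 = 3 ∧ quadraticChar F (-j) = -1)) →
        ∀ f : (Fin d → F) → ℂ,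
          ((1 / ((Finset.univ.filter (fun ξ : Fin d → F => ∑ i, ξ i ^ 2 = j)).card : ℝ)) *
            ∑ ξ ∈ Finset.univ.filter (fun ξ : Fin d → F => ∑ i, ξ i ^ 2 = j),
              ‖∑ x : Fin d → F, f x * ψ (-(∑ i, x i * ξ i))‖ ^ ((4 * d + 4 : ℝ) / (d + 3))) ^
            ((d + 3 : ℝ) / (4 * d + 4))
          ≤ C * (∑ x : Fin d → F, ‖f x‖ ^ (4 / 3 : ℝ)) ^ (3 / 4 : ℝ) :=
  Pool.Agent.Lib.MP_c8b0a1_an.Four.main

end Pool.Agent.Results.MP_c8b0a1_an.SharpLFour
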